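import Mathlib

set_option autoImplicit false

/-! The enveloping algebra of the Witt algebra, by generators and relations. -/

namespace Pool.Agent.H.MP_f83094_an

open TensorProduct

abbrev FA := FreeAlgebra ℂ ℤ

def rel (a b : FA) : Prop := ∃ m n : ℤ,
  a = FreeAlgebra.ι ℂ m * FreeAlgebra.ι ℂ n - FreeAlgebra.ι ℂ n * FreeAlgebra.ι ℂ m ∧
  b = ((n - m : ℤ) : ℂ) • FreeAlgebra.ι ℂ (m + n)

def U : Type := RingQuot rel

noncomputable instance : Ring U := inferInstanceAs (Ring (RingQuot rel))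
noncomputable instance : Algebra ℂ U := inferInstanceAs (Algebra ℂ (RingQuot rel))

noncomputable def mk : FA →ₐ[ℂ] U := RingQuot.mkAlgHom ℂ rel

noncomputable def L (n : ℤ) : U := mk (FreeAlgebra.ι ℂ n)

lemma br (m n : ℤ) : L m * L n - L n * L m = ((n - m : ℤ) : ℂ) • L (m + n) := by
  have : mk _ = mk _ := RingQuot.mkAlgHom_rel ℂ (s := rel) ⟨m, n, rfl, rfl⟩
  simpa [L] using this

noncomputable def lf {B : Type} [Ring B] [Algebra ℂ B] (Y : ℤ → B)
    (h : ∀ m n, Y m * Y n - Y n * Y m = ((n - m : ℤ) : ℂ) • Y (m + n)) : U →ₐ[ℂ] B :=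
  RingQuot.liftAlgHom ℂ ⟨FreeAlgebra.lift ℂ Y, by
    rintro _ _ ⟨m, n, rfl, rfl⟩
    simpa using h m n⟩

@[simp] lemma lf_L {B : Type} [Ring B] [Algebra ℂ B] (Y : ℤ → B)
    (h : ∀ m n, Y m * Y n - Y n * Y m = ((n - m : ℤ) : ℂ) • Y (m + n)) (n : ℤ) :
    lf Y h (L n) = Y n :=
  (RingQuot.liftAlgHom_mkAlgHom_apply _ _ _ _).trans (FreeAlgebra.lift_ι_apply _ _)

lemma U_ind {P : U → Prop} (a : U) (h0 : ∀ c, P (algebraMap ℂ U c)) (h1 : ∀ n, P (L n))
    (hm : ∀ a b, P a → P b → P (a * b)) (ha : ∀ a b, P a → P b → P (a + b)) : P a := by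
  obtain ⟨a, rfl⟩ : ∃ b, mk b = a := RingQuot.mkAlgHom_surjective ℂ rel a
  induction a using FreeAlgebra.induction with
  | grade0 c => rw [AlgHom.commutes]; exact h0 c
  | grade1 x => exact h1 x
  | mul a b p q => rw [map_mul]; exact hm _ _ p q
  | add a b p q => rw [map_add]; exact ha _ _ p q

lemma U_ext {B : Type} [Semiring B] [Algebra ℂ B] {f f' : U →ₐ[ℂ] B}
    (h : ∀ n, f (L n) = f' (L n)) : f = f' := AlgHom.ext fun a =>
  U_ind (P := fun a => f a = f' a) a (fun c => by simp) h (fun a b p q => by simp [p, q])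
    fun a b p q => by simp [p, q]

noncomputable def cm : U →ₐ[ℂ] U ⊗[ℂ] U := lf (fun n => L n ⊗ₜ 1 + 1 ⊗ₜ L n) fun m n => by
  rw [smul_add, smul_tmul', ← tmul_smul, ← br]
  simp only [add_mul, mul_add, Algebra.TensorProduct.tmul_mul_tmul, one_mul, mul_one, sub_tmul,
    tmul_sub]
  abel

noncomputable def cu : U →ₐ[ℂ] ℂ := lf (fun _ => 0) fun _ _ => by simp

lemma cm_L (n : ℤ) : cm (L n) = L n ⊗ₜ 1 + 1 ⊗ₜ L n := lf_L _ _ _
lemma cu_L (n : ℤ) : cu (L n) = 0 := lf_L _ _ _

noncomputable instance : Bialgebra ℂ U := Bialgebra.ofAlgHom cm cu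
  (U_ext fun n => by
    simp [cm_L, Algebra.TensorProduct.one_def, add_tmul, tmul_add, add_assoc])
  (U_ext fun n => by simp [cm_L, cu_L])
  (U_ext fun n => by simp [cm_L, cu_L])

noncomputable def an : U →ₐ[ℂ] Uᵐᵒᵖ := lf (fun n => MulOpposite.op (-L n)) fun m n => by
  rw [← MulOpposite.op_mul, ← MulOpposite.op_mul, ← MulOpposite.op_sub, ← MulOpposite.op_smul,
    smul_neg, ← br]
  simp

noncomputable def S : U →ₗ[ℂ] U := (MulOpposite.opLinearEquiv ℂ).symm.toLinearMap ∘ₗ an.toLinearMap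

lemma S_L (n : ℤ) : S (L n) = -L n :=
  congrArg MulOpposite.unop (show an (L n) = .op (-L n) from lf_L _ _ n)
lemma S_mul (a b : U) : S (a * b) = S b * S a := by simp [S]
lemma S_one : S 1 = 1 := by simp [S]

noncomputable instance : HopfAlgebra ℂ U where
  antipode := S
  mul_antipode_rTensor_comul := LinearMap.ext fun a => by
    change LinearMap.mul' ℂ U (S.rTensor U (cm a)) = algebraMap ℂ U (cu a)
    have k : ∀ (t : U ⊗[ℂ] U) b c, LinearMap.mul' ℂ U (S.rTensor U (t * b ⊗ₜ c)) =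
        S b * LinearMap.mul' ℂ U (S.rTensor U t) * c := fun t b c => by
      induction t <;> simp_all [S_mul, mul_assoc, add_mul, mul_add]
    induction a using U_ind
    on_goal 4 => simp [*]
    on_goal 3 => rename_i a b p q
    · simp [Algebra.algebraMap_eq_smul_one, Algebra.TensorProduct.one_def, S_one]
    · simp [cm_L, cu_L, S_L, S_one]
    · rw [map_mul cm, map_mul cu, map_mul (algebraMap ℂ U), ← q]
      induction cm b with
      | zero => simp
      | add x y h1 h2 => simp only [mul_add, map_add, h1, h2]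
      | tmul x y => rw [k, p, ← Algebra.commutes]; simp [mul_assoc]
  mul_antipode_lTensor_comul := LinearMap.ext fun a => by
    change LinearMap.mul' ℂ U (S.lTensor U (cm a)) = algebraMap ℂ U (cu a)
    have k : ∀ (t : U ⊗[ℂ] U) b c, LinearMap.mul' ℂ U (S.lTensor U (b ⊗ₜ c * t)) =
        b * LinearMap.mul' ℂ U (S.lTensor U t) * S c := fun t b c => by
      induction t <;> simp_all [S_mul, mul_assoc, add_mul, mul_add]
    induction a using U_ind
    on_goal 4 => simp [*]
    on_goal 3 => rename_i a b p q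
    · simp [Algebra.algebraMap_eq_smul_one, Algebra.TensorProduct.one_def, S_one]
    · simp [cm_L, cu_L, S_L, S_one]
    · rw [map_mul cm, map_mul cu, map_mul (algebraMap ℂ U), ← p]
      induction cm a with
      | zero => simp
      | add x y h1 h2 => simp only [add_mul, map_add, h1, h2]
      | tmul x y => rw [k, q, mul_assoc, Algebra.commutes]; simp [mul_assoc]

lemma L_ne : L 1 ≠ 0 := fun h => by
  let T : ℤ → Module.End ℂ (ℤ → ℂ) := fun n =>
    LinearMap.pi fun k => ((k - n : ℤ) : ℂ) • LinearMap.proj (k - n)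
  have := lf_L T (fun m n => by
    ext f k
    simp [T, sub_sub, add_comm]
    ring) 1
  rw [h, map_zero] at this
  simpa [T] using congrFun (LinearMap.congr_fun this fun _ => 1) 0

lemma fg : Algebra.FiniteType ℂ U := by
  refine ⟨Subalgebra.fg_def.2 ⟨{L 1, L 2, L (-1), L (-2)}, Set.toFinite _, eq_top_iff.2 fun a h => ?_⟩⟩
  clear h
  set K := Algebra.adjoin ℂ {L 1, L 2, L (-1), L (-2)}
  have k : ∀ m n, m ≠ n → L m ∈ K → L n ∈ K → L (m + n) ∈ K := fun m n h h1 h2 => by
    have := K.smul_mem (sub_mem (mul_mem h1 h2) (mul_mem h2 h1)) ((n - m : ℤ) : ℂ)⁻¹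
    rwa [br, inv_smul_smul₀ (Int.cast_ne_zero.2 (sub_ne_zero.2 h.symm))] at this
  have p1 : L 1 ∈ K := Algebra.subset_adjoin (by simp)
  have m1 : L (-1) ∈ K := Algebra.subset_adjoin (by simp)
  have kp : ∀ n : ℕ, L (n + 2) ∈ K := fun n => by
    induction n with
    | zero => exact Algebra.subset_adjoin (by simp)
    | succ n ih => convert k _ _ (by omega) p1 ih using 2; push_cast; ring
  have km : ∀ n : ℕ, L (-(n + 2)) ∈ K := fun n => by
    induction n with
    | zero => exact Algebra.subset_adjoin (by simp)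
    | succ n ih => convert k _ _ (by omega) m1 ih using 2; push_cast; ring
  induction a using U_ind with
  | h0 c => exact K.algebraMap_mem c
  | h1 n =>
    rcases (by omega : n = 1 ∨ n = -1 ∨ n = 1 + -1 ∨ n = (n - 2).toNat + 2 ∨
      n = -((-n - 2).toNat + 2)) with e | e | e | e | e <;> rw [e]
    exacts [p1, m1, k _ _ (by omega) p1 m1, kp _, km _]
  | hm a b p q => exact mul_mem p q
  | ha a b p q => exact add_mem p q

variable (p : Seminorm ℂ U) (hp : ∀ a b, p (a * b) ≤ p a * p b)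
include hp

lemma p_br (m n : ℤ) : |((n - m : ℤ) : ℝ)| * p (L (m + n)) ≤ 2 * p (L m) * p (L n) := by
  have := map_sub_le_add p (L m * L n) (L n * L m)
  rw [br, map_smul_eq_mul, Complex.norm_intCast] at this
  linarith [hp (L m) (L n), hp (L n) (L m)]

lemma p_L (m : ℤ) : p (L m) = 0 := by
  obtain ⟨N, hN⟩ := exists_nat_gt (2 * p (L 0) + |(m : ℝ)|)
  have h0 := apply_nonneg p (L 0)
  have h1 := p_br p hp 0 (-N)
  have h2 := p_br p hp (-N) (m + N)
  have h3 := neg_abs_le (m : ℝ)
  simp only [sub_zero, zero_add, Int.cast_neg, Int.cast_natCast, abs_neg, Nat.abs_cast] at h1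
  have h4 : p (L (-N)) = 0 :=
    le_antisymm (by nlinarith [apply_nonneg p (L (-N)), abs_nonneg (m : ℝ)]) (apply_nonneg _ _)
  rw [h4, show -(N : ℤ) + (m + N) = m by ring, abs_of_pos (by push_cast; linarith [abs_nonneg (m : ℝ)])]
    at h2
  push_cast at h2
  exact le_antisymm (by nlinarith [apply_nonneg p (L m), abs_nonneg (m : ℝ)]) (apply_nonneg _ _)

lemma p_ker (a : U) : p (a - algebraMap ℂ U (cu a)) = 0 := by
  induction a using U_ind with
  | h0 c => simp
  | h1 n => simpa [cu_L] using p_L p hp n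
  | hm a b k1 k2 =>
    rw [show a * b - algebraMap ℂ U (cu (a * b)) = (a - algebraMap ℂ U (cu a)) * b +
      algebraMap ℂ U (cu a) * (b - algebraMap ℂ U (cu b)) by simp [sub_mul, mul_sub]]
    refine le_antisymm ((map_add_le_add p _ _).trans ?_) (apply_nonneg _ _)
    exact (add_le_add (hp _ _) (hp _ _)).trans (by rw [k1, k2]; simp)
  | ha a b k1 k2 =>
    rw [map_add, map_add, ← sub_add_sub_comm]
    exact le_antisymm ((map_add_le_add p _ _).trans (by simp [k1, k2])) (apply_nonneg _ _)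

end Pool.Agent.H.MP_f83094_an
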